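import Pool.Agent.helper41.HFE.Spec

/-!
# Project hfe (MP_3221a1_ag), row C11: curves of bidegree (1, 1)
-/

set_option autoImplicit false

open Polynomial Module Pool.Agent.HFN

namespace Pool.Agent.HFE

noncomputable section

theorem C11_ext {f g : AA} (h : ∀ z : ℂ × ℂ, ev z f = ev z g) : f = g := by
  rw [← sub_eq_zero]
  apply Polynomial.eq_zero_of_infinite_isRoot
  refine Set.Infinite.mono ?_ (Set.infinite_range_of_injective (C_injective (R := ℂ)))
  rintro _ ⟨y, rfl⟩
  show (f - g).eval (C y) = 0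
  apply Polynomial.funext
  intro x
  have h1 := h (x, y)
  rw [ev_def, ev_def] at h1
  rw [eval_sub, eval_sub, h1, sub_self, eval_zero]

theorem C11_lin (α β c : ℂ) (hc : c ≠ 0) (f : AA) (hf : f = c • (C (X - C α) * (X - C (C β)) : AA)) :
    (∀ z : ℂ × ℂ, ev z f = 0 ↔ (z.1 = α ∨ z.2 = β)) ∧ ∀ z : ℂ × ℂ, Db z f ↔ (z.1 = α ∧ z.2 = β) := by
  have h1 : ∀ z : ℂ × ℂ, ev z f = c * ((z.1 - α) * (z.2 - β)) := by
    intro z
    rw [hf, ev_smul, ev_mul, ev_sub, ev_C, ev_C, ev_X]
    simp
  have h2 : ∀ z : ℂ × ℂ, ev z (Dx f) = c * (z.2 - β) := by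
    intro z
    rw [hf, Dx_smul, Dx_mul, Dx_sub, Dx_C, Dx_C, Dx_X, ev_smul, ev_add, ev_mul, ev_mul, ev_C, ev_sub, ev_X, ev_C]
    simp
  have h3 : ∀ z : ℂ × ℂ, ev z (Dy f) = c * (z.1 - α) := by
    intro z
    rw [hf, Dy_smul, Dy_mul, Dy_sub, Dy_C, Dy_C, Dy_X, ev_smul, ev_add, ev_mul, ev_mul, ev_C]
    simp
  constructor
  · intro z
    rw [h1, mul_eq_zero, mul_eq_zero, sub_eq_zero, sub_eq_zero]
    simp [hc]
  · intro z
    unfold Db
    rw [h1, h2, h3]
    constructor
    · rintro ⟨-, h4, h5⟩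
      constructor
      · have := (mul_eq_zero.1 h5).resolve_left hc
        exact sub_eq_zero.1 this
      · have := (mul_eq_zero.1 h4).resolve_left hc
        exact sub_eq_zero.1 this
    · rintro ⟨h4, h5⟩
      rw [h4, h5]
      simp

theorem C11_La (Z : Finset (ℂ × ℂ)) (α β c : ℂ) (hc : c ≠ 0) (f : AA) (hf : f = c • (C (X - C α) * (X - C (C β)) : AA)) : La Z f = cr Z α β := by
  classical
  obtain ⟨h1, h2⟩ := C11_lin α β c hc f hf
  have e1 : nn Z f = (Z.filter (fun z => z.1 = α) ∪ Z.filter (fun z => z.2 = β)).card := by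
    unfold nn
    rw [← Finset.filter_or]
    congr 1
    ext z
    simp only [Finset.mem_filter, h1]
  have e2 : sg Z f = (Z.filter (fun z => z.1 = α) ∩ Z.filter (fun z => z.2 = β)).card := by
    unfold sg
    rw [← Finset.filter_and]
    congr 1
    ext z
    simp only [Finset.mem_filter, h2]
  have e3 : (Z.filter (fun z => z.1 = α) ∩ Z.filter (fun z => z.2 = β)).card = if (α, β) ∈ Z then 1 else 0 := by
    have h3 : Z.filter (fun z => z.1 = α) ∩ Z.filter (fun z => z.2 = β) = Z.filter (fun z => z = (α, β)) := by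
      rw [← Finset.filter_and]
      ext z
      simp only [Finset.mem_filter, Prod.ext_iff]
    rw [h3, Finset.filter_eq']
    split_ifs <;> simp
  have e4 := Finset.card_union_add_card_inter (Z.filter (fun z => z.1 = α)) (Z.filter (fun z => z.2 = β))
  have e5 : nc Z α = (Z.filter (fun z => z.1 = α)).card := by
    unfold nc
    congr 1
  have e6 : mr Z β = (Z.filter (fun z => z.2 = β)).card := by
    unfold mr
    congr 1
  have e7 : cr Z α β = 2 * nc Z α + 2 * mr Z β - if (α, β) ∈ Z then 1 else 0 := by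
    unfold cr
    congr 1
  unfold La
  rw [e7, e1, e2, e5, e6]
  rw [e3] at e4 ⊢
  split_ifs at e4 ⊢ <;> omega

theorem C11 : C11_stmt := by
  intro hF
  refine ⟨?_, ?_, ?_⟩
  · intro Z f h1 h2 h3
    obtain ⟨α, β, c, hc, hf⟩ := hF.2.2 f h1 h2 h3
    exact ⟨α, β, C11_La Z α β c hc f hf⟩
  · classical
    intro Z f hf
    obtain ⟨a, b, c, d, hdet, h1⟩ := hF.1 f hf
    have h2 : f = C (C a * X + C b) * X + C (C c * X + C d) := by
      apply C11_ext
      intro z
      rw [h1, ev_add, ev_mul, ev_C, ev_C, ev_X]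
      simp
      ring
    have h3 : sg Z f = 0 := by
      unfold sg
      rw [Finset.card_eq_zero, Finset.filter_eq_empty_iff]
      rintro z - ⟨g1, g2, g3⟩
      have k2 : ev z (Dx f) = a * z.2 + c := by
        rw [h2, Dx_add, Dx_mul, Dx_C, Dx_C, Dx_X, ev_add, ev_add, ev_mul, ev_mul, ev_C, ev_C, ev_C, ev_X]
        simp
      have k3 : ev z (Dy f) = a * z.1 + b := by
        rw [h2, Dy_add, Dy_mul, Dy_C, Dy_C, Dy_X, ev_add, ev_add, ev_mul, ev_mul, ev_C]
        simp
      rw [h1] at g1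
      rw [k2] at g2
      rw [k3] at g3
      apply hdet
      have e1 : b = -(a * z.1) := by linear_combination g3
      have e2 : c = -(a * z.2) := by linear_combination g2
      rw [e1, e2] at g1
      rw [e1, e2]
      linear_combination a * g1
    unfold La
    rw [h3, add_zero]
  · intro Z α β
    have hX : (X - C (C β) : AA) ≠ 0 := X_sub_C_ne_zero _
    have hC : (C (X - C α) : AA) ≠ 0 := by
      rw [Ne, C_eq_zero]
      exact X_sub_C_ne_zero _
    refine ⟨C (X - C α) * (X - C (C β)), mul_ne_zero hC hX, ?_, ?_, C11_La Z α β 1 one_ne_zero _ (by rw [one_smul])⟩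
    · rw [dX_mul hC hX, dX_C, natDegree_X_sub_C]
      have h1 : (X - C (C β) : AA) ∈ V 0 1 := by
        refine (V 0 1).sub_mem ?_ ?_
        · rw [mem_V, dX_X, dY_X]
          exact ⟨le_rfl, le_rfl⟩
        · rw [mem_V, dX_C, dY_C, natDegree_C]
          exact ⟨le_rfl, zero_le_one⟩
      have h2 := h1.1
      omega
    · rw [dY_mul hC hX, dY_C]
      show 0 + natDegree (X - C (C β) : AA) = 1
      rw [natDegree_X_sub_C]

end

end Pool.Agent.HFE
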