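import Pool.Agent.helper41.HFE.SpecD

/-!
# Project HFE (MP_3221a1_ag), block D, row LAP: length = sum over the points
-/

set_option autoImplicit false

open Polynomial Module Pool.Agent.HFN

namespace Pool.Agent.HFE

noncomputable section

theorem LAP : LAP_stmt := by
  intro Z f
  classical
  have h : ∀ z : ℂ × ℂ, ph (od f z) = 2 * (if ev z f = 0 then 1 else 0) + (if Db z f then 1 else 0) := by
    intro z
    unfold od ph
    by_cases h1 : Db z f
    · have h2 : ev z f = 0 := h1.1
      simp [h1, h2]
    · by_cases h2 : ev z f = 0
      · simp [h1, h2]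
      · simp [h1, h2]
  unfold La nn sg
  rw [Finset.sum_congr rfl fun z _ => h z, Finset.sum_add_distrib, ← Finset.mul_sum, ← Finset.card_filter, ← Finset.card_filter]

end

end Pool.Agent.HFE
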